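import Pool.Agent.helper74.PL.Fin

namespace Pool.Agent.Results.MP_40586e_nt.LocalProportion

/-- For all large `N`, more than 36 per cent of the triples `(a, b, c)` with `1 ≤ a, b, c ≤ N`
are such that `a x ^ n - b y ^ m = c` has no solution in integers `x, y` and exponents
`m, n ≥ 2`. -/
theorem result : ∃ N₀ : ℕ, ∀ N : ℕ, N₀ ≤ N →
    9 * N ^ 3 < 25 * {t : ℕ × ℕ × ℕ |
      (1 ≤ t.1 ∧ t.1 ≤ N) ∧ (1 ≤ t.2.1 ∧ t.2.1 ≤ N) ∧ (1 ≤ t.2.2 ∧ t.2.2 ≤ N) ∧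
      ∀ (x y : ℤ) (m n : ℕ), 2 ≤ m → 2 ≤ n →
        (t.1 : ℤ) * x ^ n - (t.2.1 : ℤ) * y ^ m ≠ (t.2.2 : ℤ)}.ncard :=
  ⟨3000 * 597245143738042800, fun N hN => Pool.Agent.helper74.PL.main N hN⟩

end Pool.Agent.Results.MP_40586e_nt.LocalProportion
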